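import Mathlib

namespace Pool.Agent.Results.MP_2c0ed3_al.Counter

open Polynomial

section
variable (F A : Type) [Field F] [LieRing A] [LieAlgebra F A]

/-- Right multiplication `x ↦ [x, a]`. -/
def R (a : A) : Module.End F A := -LieAlgebra.ad F A a

/-- Engel: `[y, x, …, x] = 0` with a number of brackets depending on `x` and `y`. -/
def Engel : Prop := ∀ x y : A, ∃ n ≥ 1, (fun z => ⁅z, x⁆)^[n] y = 0

/-- The locally nilpotent radical of a Lie algebra. -/
def LieRad : LieIdeal F A := sSup {I | ∀ s : Finset A, (∀ x ∈ s, x ∈ I) →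
  LieRing.IsNilpotent (LieSubalgebra.lieSpan F A (s : Set A))}

end

section
variable (F : Type) {E : Type} [Field F] [Ring E] [Algebra F E]

/-- The non-unital subalgebra generated by `s`. -/
def gen (s : Set E) : Set E := NonUnitalAlgebra.adjoin F s

/-- The locally nilpotent radical of a subalgebra `B` of `E`: the sum of its locally nilpotent
ideals. -/
def Rad (B : Set E) : Submodule F E :=
  sSup {I | (∀ x ∈ I, x ∈ B ∧ ∀ b ∈ B, b * x ∈ I ∧ x * b ∈ I) ∧ ∀ s : Finset E, (∀ x ∈ s, x ∈ I) →
    ∃ n, ∀ l : List E, l.length = n → (∀ y ∈ l, y ∈ gen F s) → l.prod = 0}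
end

variable (F : Type) [Field F]

noncomputable def T : Module.End F F[X] where
  toFun := divX
  map_add' _ _ := divX_add
  map_smul' c p := by ext; simp [coeff_divX]

theorem T_pow (n i : ℕ) (p : F[X]) : ((T F ^ n) p).coeff i = p.coeff (i + n) := by
  induction n generalizing i with
  | zero => rfl
  | succ n ih => rw [pow_succ', Module.End.mul_apply, ← add_assoc, add_right_comm, ← ih]; exact coeff_divX

def A := F × F[X]

noncomputable instance : AddCommGroup (A F) := inferInstanceAs (AddCommGroup (F × F[X]))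
noncomputable instance : Module F (A F) := inferInstanceAs (Module F (F × F[X]))

noncomputable instance : LieRing (A F) where
  bracket x y := (0, x.1 • T F y.2 - y.1 • T F x.2)
  add_lie x y z := Prod.ext (add_zero _).symm (by
    change (x.1 + y.1) • T F z.2 - z.1 • T F (x.2 + y.2) = (_ - _) + (_ - _)
    rw [map_add]; module)
  lie_add x y z := Prod.ext (add_zero _).symm (by
    change x.1 • T F (y.2 + z.2) - (y.1 + z.1) • T F x.2 = (_ - _) + (_ - _)
    rw [map_add]; module)
  lie_self x := Prod.ext rfl (sub_self _)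
  leibniz_lie x y z := Prod.ext (add_zero _).symm (by
    change x.1 • T F (_ - _) - (0 : F) • _ = ((0 : F) • _ - z.1 • T F (_ - _)) +
      (y.1 • T F (_ - _) - (0 : F) • _)
    simp only [map_sub, map_smul]; module)

noncomputable instance : LieAlgebra F (A F) where
  lie_smul t x y := Prod.ext (mul_zero t).symm (by
    change x.1 • T F (t • y.2) - (t * y.1) • T F x.2 = t • (_ - _)
    rw [map_smul]; module)

theorem br (x y : A F) (i : ℕ) : ⁅x, y⁆.2.coeff i = x.1 * y.2.coeff (i + 1) - y.1 * x.2.coeff (i + 1) := by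
  change (x.1 • divX y.2 - y.1 • divX x.2).coeff i = _
  simp [coeff_divX]

theorem locnil (s : Finset (A F)) : LieRing.IsNilpotent (LieSubalgebra.lieSpan F (A F) (s : Set _)) := by
  obtain ⟨N, hN⟩ := (s.finite_toSet.image fun x => x.2.natDegree).bddAbove
  let K : LieSubalgebra F (A F) :=
    { carrier := {x | ∀ i, N < i → x.2.coeff i = 0}
      add_mem' := fun {x y} h k i hi => (coeff_add _ _ _).trans (by rw [h i hi, k i hi, add_zero])
      zero_mem' := fun _ _ => rfl
      smul_mem' := fun c x h i hi => (coeff_smul _ _ _).trans (by rw [h i hi, smul_zero])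
      lie_mem' := fun {x y} h k i hi => by rw [br, h _ (by omega), k _ (by omega)]; simp }
  have hK : LieSubalgebra.lieSpan F (A F) (s : Set _) ≤ K := LieSubalgebra.lieSpan_le.2
    fun x hx i hi => coeff_eq_zero_of_natDegree_lt ((hN ⟨x, hx, rfl⟩).trans_lt hi)
  set S := LieSubalgebra.lieSpan F (A F) (s : Set _)
  let M : ℕ → LieSubmodule F S S := fun k =>
    { carrier := {x | x.1.1 = 0 ∧ ∀ i, N < i + k → x.1.2.coeff i = 0}
      add_mem' := fun {x y} h k => ⟨(congrArg₂ (· + ·) h.1 k.1).trans (add_zero _), fun i hi =>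
        (coeff_add _ _ _).trans (by rw [h.2 i hi, k.2 i hi, add_zero])⟩
      zero_mem' := ⟨rfl, fun _ _ => rfl⟩
      smul_mem' := fun c x h => ⟨(congrArg (c * ·) h.1).trans (mul_zero _), fun i hi =>
        (coeff_smul _ _ _).trans (by rw [h.2 i hi, smul_zero])⟩
      lie_mem := fun {x y} h => ⟨rfl, fun i hi => (br ..).trans (by
        rw [h.1, h.2 _ (by omega)]; simp)⟩ }
  have key : ∀ k, LieModule.lowerCentralSeries F S S (k + 1) ≤ M (k + 1) := by
    intro k
    induction k with
    | zero =>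
      refine (LieSubmodule.lie_le_iff _ _ _).2 fun x _ y _ => ⟨rfl, fun i hi => (br ..).trans ?_⟩
      rw [hK x.2 _ hi, hK y.2 _ hi]; simp
    | succ k ih =>
      rw [LieModule.lowerCentralSeries_succ, LieSubmodule.lie_le_iff]
      refine fun x _ y hy => ⟨rfl, fun i hi => (br ..).trans ?_⟩
      rw [(ih hy).1, (ih hy).2 _ (by omega)]; simp
  refine (LieModule.isNilpotent_iff F S S).2 ⟨N + 1, le_bot_iff.1 fun x hx => ?_⟩
  exact Subtype.ext (Prod.ext (key N hx).1 (Polynomial.ext fun i => (key N hx).2 i (by omega)))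

noncomputable def ρ (g : Module.End F (A F)) : Module.End F F[X] :=
  LinearMap.snd F F F[X] ∘ₗ g ∘ₗ LinearMap.inr F F F[X]

theorem ρ_mul (g h : Module.End F (A F)) (k : ∀ x, (h x).1 = 0) : ρ F (g * h) = ρ F g * ρ F h :=
  LinearMap.ext fun p => congrArg (fun x => (g x).2) (Prod.ext (k _) rfl)

theorem ρ_R (a : A F) : ρ F (R F _ a) = -a.1 • T F := LinearMap.ext fun p => by
  change -(a.1 • T F p - (0 : F) • _) = _
  simp

theorem mult (g : Module.End F (A F)) (hg : g ∈ NonUnitalAlgebra.adjoin F (Set.range (R F (A F)))) :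
    (∀ x, (g x).1 = 0) ∧ ρ F g ∈ Algebra.adjoin F {T F} := by
  induction hg using NonUnitalAlgebra.adjoin_induction with
  | mem g hg =>
    obtain ⟨a, rfl⟩ := hg
    refine ⟨fun _ => neg_zero, ?_⟩
    rw [ρ_R]
    exact Subalgebra.smul_mem _ (Algebra.subset_adjoin (Set.mem_singleton _)) _
  | add g h _ _ a b => exact ⟨fun x => (congrArg₂ (· + ·) (a.1 x) (b.1 x)).trans (add_zero _),
      add_mem a.2 b.2⟩
  | zero => exact ⟨fun _ => rfl, zero_mem _⟩
  | mul g h _ _ a b => exact ⟨fun x => a.1 _, by rw [ρ_mul F g h b.1]; exact mul_mem a.2 b.2⟩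
  | smul c g _ a => exact ⟨fun x => (congrArg (c * ·) (a.1 x)).trans (mul_zero _),
      Subalgebra.smul_mem _ a.2 c⟩

theorem comm {g h : Module.End F F[X]} (a : g ∈ Algebra.adjoin F {T F})
    (b : h ∈ Algebra.adjoin F {T F}) : Commute g h :=
  Algebra.commute_of_mem_adjoin_singleton_of_commute b (Algebra.commute_of_mem_adjoin_self a).symm

theorem result (F : Type) [Field F] : ∃ (A : Type) (_ : LieRing A) (_ : LieAlgebra F A) (a : A),
    Engel A ∧ a ∈ LieRad F A ∧ R F A a ∉ Rad F (gen F (Set.range (R F A))) := by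
  refine ⟨A F, _, _, (-1, 0), fun x y => ?_,
    (show ⊤ ≤ LieRad F (A F) from le_sSup fun s _ => locnil F s) trivial, fun h => ?_⟩
  · classical
    have := locnil F {x, y}
    have m : ∀ z ∈ ({x, y} : Finset (A F)), z ∈ LieSubalgebra.lieSpan F (A F) ({x, y} : Finset (A F)) :=
      fun z hz => LieSubalgebra.subset_lieSpan hz
    set S := LieSubalgebra.lieSpan F (A F) ({x, y} : Finset (A F))
    obtain ⟨n, hn⟩ := (LieModule.isNilpotent_toEnd_of_isNilpotent F S S ⟨x, m x (by simp)⟩).neg
    refine ⟨n + 1, by omega, ?_⟩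
    rw [Function.iterate_succ_apply']
    suffices ∀ k, (fun z => ⁅z, x⁆)^[k] y = (((-LieModule.toEnd F S S
        ⟨x, m x (by simp)⟩) ^ k) ⟨y, m y (by simp)⟩).1 by rw [this, hn]; simp
    intro k
    induction k with
    | zero => rfl
    | succ k ih => rw [Function.iterate_succ_apply', ih, pow_succ']; simp
  · let S : Submodule F (Module.End F (A F)) :=
      { carrier := {g | ρ F g ∈ Algebra.adjoin F {T F} ∧ IsNilpotent (ρ F g)}
        add_mem' := fun a b => ⟨add_mem a.1 b.1, (comm F a.1 b.1).isNilpotent_add a.2 b.2⟩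
        zero_mem' := ⟨zero_mem _, IsNilpotent.zero⟩
        smul_mem' := fun c _ a => ⟨Subalgebra.smul_mem _ a.1 c, a.2.smul c⟩ }
    have : Rad F (gen F (Set.range (R F (A F)))) ≤ S := sSup_le fun I hI g hg => by
      obtain ⟨n, hn⟩ := hI.2 {g} (by simpa using hg)
      have e := hn (List.replicate n g) (by simp) fun x hx =>
        NonUnitalAlgebra.subset_adjoin F (by simp [List.eq_of_mem_replicate hx])
      rw [List.prod_replicate] at e
      have m := mult F g (hI.1 g hg).1
      refine ⟨m.2, n + 1, ?_⟩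
      suffices ∀ k, ρ F g ^ (k + 1) = ρ F (g ^ (k + 1)) by rw [this, pow_succ, e, zero_mul]; rfl
      intro k
      induction k with
      | zero => simp
      | succ k ih => rw [pow_succ, ih, ← ρ_mul F _ _ m.1, ← pow_succ]
    obtain ⟨-, n, hn⟩ := this h
    have := T_pow F n 0 (X ^ n)
    simp only [ρ_R, neg_neg, one_smul] at hn
    simp [hn] at this

end Pool.Agent.Results.MP_2c0ed3_al.Counter
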